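import Pool.Agent.X100.SM.B

set_option autoImplicit false

/-!
# The joint law of the positions, with norms in `L¹`

A refinement of `Pool.Agent.X100.SM.A`: the error terms are bounded by the integrals of the
derivatives of the observables and by the means of `1 - f k`.
-/

namespace Pool.Agent.X25.PV

open Real MeasureTheory Function Pool.Agent.TH705.SM Pool.Agent.X100.SM

/-- majorant of `chi |P'| / |D|` -/
noncomputable def RR (a l s : ℝ) (f' : ℕ → ℝ → ℝ) : ℕ → ℝ → ℝ
  | 0, _ => 0
  | m + 1, t => 2 / l * (RR a l s f' m t + chi a l s m t * |f' (m + 1) (X a s (m + 1) t)|)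

theorem RR_cont {a l s : ℝ} {f' : ℕ → ℝ → ℝ} (c : ∀ k, Continuous (f' k)) (m : ℕ) :
    Continuous (RR a l s f' m) := by
  induction m with
  | zero => exact continuous_const
  | succ m ih =>
    exact continuous_const.mul (ih.add ((chi_cont a l s m).mul
      ((c (m + 1)).comp (Xt_cont a s (m + 1))).abs))

theorem RR_bound {a l s : ℝ} (hl : 16 ≤ l) {f f' : ℕ → ℝ → ℝ} (b : ∀ k x, |f k x| ≤ 1)
    (m : ℕ) (t : ℝ) :
    chi a l s m t * |PP' a s f f' m t| / |D a s (m + 1) t| ≤ RR a l s f' m t := by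
  have hl0 : 0 < l := by linarith
  induction m with
  | zero => simp [PP', RR]
  | succ m ih =>
    have hR : RR a l s f' (m + 1) t =
      2 / l * (RR a l s f' m t + chi a l s m t * |f' (m + 1) (X a s (m + 1) t)|) := rfl
    have hR0 : 0 ≤ RR a l s f' m t := le_trans
      (div_nonneg (mul_nonneg (chi_mem a l s m t).1 (abs_nonneg _)) (abs_nonneg _)) ih
    have hc0 := (chi_mem a l s m t).1
    by_cases hg : Good a l s (m + 1) t
    · have hg' : Good a l s m t := hg.mono (Nat.le_succ m)
      have hD1 : 0 < |D a s (m + 1) t| := abs_pos.2 (D_ne hl hg')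
      have hD2 : 0 < |D a s (m + 1 + 1) t| := abs_pos.2 (D_ne hl hg)
      have h1 := (growth hl hg (m + 1) le_rfl).1
      have h2 : |PP' a s f f' (m + 1) t| ≤ |PP' a s f f' m t| +
          |f' (m + 1) (X a s (m + 1) t)| * |D a s (m + 1) t| := by
        show |PP' a s f f' m t * f (m + 1) (X a s (m + 1) t) +
          PP a s f m t * (f' (m + 1) (X a s (m + 1) t) * D a s (m + 1) t)| ≤ _
        refine (abs_add_le _ _).trans (add_le_add ?_ ?_)
        · rw [abs_mul]
          exact mul_le_of_le_one_right (abs_nonneg _) (b _ _)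
        · rw [abs_mul, abs_mul]
          exact mul_le_of_le_one_left (by positivity) (PP_le a s b m t)
      have h3 : chi a l s (m + 1) t ≤ chi a l s m t := by
        show chi a l s m t * rk a l s (m + 1) t ≤ chi a l s m t
        exact mul_le_of_le_one_right hc0 (rho_le_one _)
      rw [hR, div_le_iff₀ hD2]
      have h4 : chi a l s m t * |PP' a s f f' m t| ≤ RR a l s f' m t * |D a s (m + 1) t| := by
        rwa [div_le_iff₀ hD1] at ih
      have h5 : chi a l s (m + 1) t * |PP' a s f f' (m + 1) t| ≤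
          (RR a l s f' m t + chi a l s m t * |f' (m + 1) (X a s (m + 1) t)|) *
            |D a s (m + 1) t| := by
        calc chi a l s (m + 1) t * |PP' a s f f' (m + 1) t| ≤
            chi a l s m t * (|PP' a s f f' m t| +
              |f' (m + 1) (X a s (m + 1) t)| * |D a s (m + 1) t|) :=
              mul_le_mul h3 h2 (abs_nonneg _) hc0
          _ ≤ _ := by
              rw [add_mul, mul_add]
              linarith
      have hS : 0 ≤ RR a l s f' m t + chi a l s m t * |f' (m + 1) (X a s (m + 1) t)| := by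
        positivity
      refine h5.trans ?_
      have h6 : |D a s (m + 1) t| ≤ 2 / l * |D a s (m + 1 + 1) t| := by
        rw [div_mul_eq_mul_div, le_div_iff₀ hl0]
        linarith
      calc _ ≤ (RR a l s f' m t + chi a l s m t * |f' (m + 1) (X a s (m + 1) t)|) *
            (2 / l * |D a s (m + 1 + 1) t|) := mul_le_mul_of_nonneg_left h6 hS
        _ = _ := by ring
    · rw [(chi_bad hl0 hg).1, zero_mul, zero_div, hR]
      positivity

theorem der_periodic {f f' : ℝ → ℝ} (d : ∀ x, HasDerivAt f (f' x) x) (p : Periodic f 1) :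
    Periodic f' 1 := by
  intro x
  have h1 : HasDerivAt (fun y => f (y + 1)) (f' (x + 1)) x := by
    have := (d (x + 1)).comp_add_const x 1
    exact this
  have h2 : (fun y => f (y + 1)) = f := funext fun y => p y
  rw [h2] at h1
  exact h1.unique (d x)

theorem RR_int {a l : ℝ} (hl' : l0 ≤ l) (hla : l ≤ |a|) (s : ℝ) {f' : ℕ → ℝ → ℝ}
    (c : ∀ k, Continuous (f' k)) (p : ∀ k, Periodic (f' k) 1) {V : ℝ}
    (hV : ∀ k, ∫ x in (0:ℝ)..1, |f' k x| ≤ V) (m : ℕ) :
    ∫ t in (0:ℝ)..1, RR a l s f' m t ≤ 5 * V / l := by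
  have hl : 16 ≤ l := l0_ge.trans hl'
  have hl0 : 0 < l := by linarith
  have hV0 : 0 ≤ V := le_trans (intervalIntegral.integral_nonneg zero_le_one
    fun x _ => abs_nonneg _) (hV 0)
  induction m with
  | zero =>
    show ∫ t in (0:ℝ)..1, (0:ℝ) ≤ _
    simp only [intervalIntegral.integral_zero]
    positivity
  | succ m ih =>
    have h1 := dens hl' hla s m (f := fun x => |f' (m + 1) x|) (c (m + 1)).abs
      (fun x => by show |f' (m + 1) (x + 1)| = |f' (m + 1) x|; rw [p (m + 1) x])
      (fun x => abs_nonneg _)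
    have hRc : Continuous (RR a l s f' m) := RR_cont c m
    have hcc := chi_cont a l s m
    have hXc := Xt_cont a s (m + 1)
    have hfc := c (m + 1)
    have e : ∫ t in (0:ℝ)..1, RR a l s f' (m + 1) t =
        2 / l * ((∫ t in (0:ℝ)..1, RR a l s f' m t) +
          ∫ t in (0:ℝ)..1, chi a l s m t * |f' (m + 1) (X a s (m + 1) t)|) := by
      rw [← intervalIntegral.integral_add (hRc.intervalIntegrable _ _)
        (Continuous.intervalIntegrable (by fun_prop) _ _), ← intervalIntegral.integral_const_mul]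
      rfl
    rw [e]
    have h2 := hV (m + 1)
    have h3 : 5 * V / l ≤ V / 2 := by
      rw [div_le_div_iff₀ hl0 (by norm_num)]
      nlinarith
    have h4 : (∫ t in (0:ℝ)..1, RR a l s f' m t) +
        ∫ t in (0:ℝ)..1, chi a l s m t * |f' (m + 1) (X a s (m + 1) t)| ≤ 5 / 2 * V := by
      linarith
    calc _ ≤ 2 / l * (5 / 2 * V) := mul_le_mul_of_nonneg_left h4 (by positivity)
      _ = _ := by ring

/-- primitives of `f` minus its mean, when `f ≤ 1` -/
theorem prim2 {f : ℝ → ℝ} (hf : Continuous f) (hp : Periodic f 1) (h1 : ∀ x, f x ≤ 1) :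
    ∃ G : ℝ → ℝ, (∀ u, HasDerivAt G (f u - ∫ x in (0:ℝ)..1, f x) u) ∧ Periodic G 1 ∧
      ∀ u, |G u| ≤ 1 - ∫ x in (0:ℝ)..1, f x := by
  set fb := ∫ x in (0:ℝ)..1, f x with hfb
  set G : ℝ → ℝ := fun u => ∫ x in (0:ℝ)..u, (f x - fb) with hG
  have hgc : Continuous (fun x => f x - fb) := hf.sub continuous_const
  have hGp : Periodic G 1 := by
    intro u
    rw [hG]
    simp only
    have h1 : ∫ x in (0:ℝ)..(u + 1), (f x - fb) = (∫ x in (0:ℝ)..u, (f x - fb)) +
        ∫ x in u..(u + 1), (f x - fb) :=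
      (intervalIntegral.integral_add_adjacent_intervals (hgc.intervalIntegrable _ _)
        (hgc.intervalIntegrable _ _)).symm
    have h2 : Periodic (fun x => f x - fb) 1 := by
      intro x
      simp only
      rw [hp]
    have h3 := h2.intervalIntegral_add_eq u 0
    have h4 : ∫ x in (0:ℝ)..1, (f x - fb) = 0 := by
      rw [intervalIntegral.integral_sub (hf.intervalIntegrable _ _)
        intervalIntegrable_const, intervalIntegral.integral_const, ← hfb]
      simp
    rw [zero_add, h4] at h3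
    rw [h1, h3, add_zero]
  refine ⟨G, fun u => intervalIntegral.integral_hasDerivAt_right (hgc.intervalIntegrable _ _)
      (hgc.stronglyMeasurableAtFilter _ _) hgc.continuousAt, hGp, ?_⟩
  intro u
  obtain ⟨y, hy, hy2⟩ := hGp.exists_mem_Ico₀ one_pos u
  rw [hy2]
  have e1 : G y = (∫ x in (0:ℝ)..y, f x) - y * fb := by
    rw [hG]
    simp only
    rw [intervalIntegral.integral_sub (hf.intervalIntegrable _ _)
      intervalIntegrable_const, intervalIntegral.integral_const]
    simp
  have h2 : ∫ x in (0:ℝ)..y, f x ≤ y := by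
    have := intervalIntegral.integral_mono_on hy.1 (hf.intervalIntegrable (μ := volume) 0 y)
      (intervalIntegrable_const (c := (1:ℝ))) (fun x _ => h1 x)
    simpa using this
  have h3 : ∫ x in y..1, f x ≤ 1 - y := by
    have := intervalIntegral.integral_mono_on hy.2.le (hf.intervalIntegrable (μ := volume) y 1)
      (intervalIntegrable_const (c := (1:ℝ))) (fun x _ => h1 x)
    simpa using this
  have h4 := intervalIntegral.integral_add_adjacent_intervals
    (hf.intervalIntegrable (μ := volume) 0 y) (hf.intervalIntegrable y 1)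
  rw [← hfb] at h4
  have h5 : fb ≤ 1 := by linarith
  rw [e1, abs_le]
  have := hy.1
  have := hy.2
  constructor <;> nlinarith

/-- one step -/
theorem step2 {a l : ℝ} (hl' : l0 ≤ l) (hla : l ≤ |a|) (s : ℝ) (m : ℕ) {f f' : ℕ → ℝ → ℝ}
    (d : ∀ k x, HasDerivAt (f k) (f' k x) x) (c : ∀ k, Continuous (f' k))
    (p : ∀ k, Periodic (f k) 1) (b : ∀ k x, |f k x| ≤ 1) {V : ℝ}
    (hV : ∀ k, ∫ x in (0:ℝ)..1, |f' k x| ≤ V) :
    |∫ t in (0:ℝ)..1, chi a l s m t * PP a s f m t *
      (f (m + 1) (X a s (m + 1) t) - mn f (m + 1))| ≤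
      (1 - mn f (m + 1)) * ((l0 + 5 * V) / l) := by
  have hl : 16 ≤ l := l0_ge.trans hl'
  have hl0 : 0 < l := by linarith
  have hK := KK_one
  have hfc : ∀ k, Continuous (f k) := fun k =>
    continuous_iff_continuousAt.2 fun t => (d k t).continuousAt
  obtain ⟨G, hG, hGp, hG1⟩ := prim2 (hfc (m + 1)) (p (m + 1))
    (fun x => (abs_le.1 (b (m + 1) x)).2)
  have hPd := PP_hasDeriv a s d m
  have hP'c := PP'_cont a s hfc c m
  have hP1 := PP_le a s b m
  have hPp := PP_period a s p m
  have hVc := VV_cont a hl0 s m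
  have hRc : Continuous (RR a l s f' m) := RR_cont c m
  have hf1 := hfc (m + 1)
  have hibp := ibp2 (a := a) (s := s) hl m hPd hP'c hPp
    (bd := fun t => 104 * KK * π ^ 2 * VV a l s m t + RR a l s f' m t) (by fun_prop) (fun t =>
      (W'_le2 hl m (hP1 t)).trans (add_le_add le_rfl (RR_bound hl b m t))) hG (by fun_prop)
      (fun u n => by
        have := hGp.nat_mul n u
        rwa [mul_one] at this) hG1
  have hVV := mul_le_mul_of_nonneg_left (VV_int hl' hla s m)
    (by positivity : 0 ≤ 104 * KK * π ^ 2)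
  have hRR := RR_int hl' hla s c (fun k => der_periodic (d k) (p k)) hV m
  have e : ∫ t in (0:ℝ)..1, (104 * KK * π ^ 2 * VV a l s m t + RR a l s f' m t) =
      104 * KK * π ^ 2 * (∫ t in (0:ℝ)..1, VV a l s m t) + ∫ t in (0:ℝ)..1, RR a l s f' m t := by
    rw [← intervalIntegral.integral_const_mul, ← intervalIntegral.integral_add
      (Continuous.intervalIntegrable (by fun_prop) _ _)
      (Continuous.intervalIntegrable (by fun_prop) _ _)]
  rw [e] at hibp
  have hmn : 0 ≤ 1 - mn f (m + 1) := by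
    have := (abs_nonneg _).trans (hG1 0)
    exact this
  refine hibp.trans ?_
  apply mul_le_mul_of_nonneg_left _ hmn
  have e2 : (l0 + 5 * V) / l = 104 * KK * π ^ 2 * (1 / l) + 5 * V / l := by
    unfold l0
    ring
  rw [e2]
  exact add_le_add hVV hRR

theorem rec_step2 {a l : ℝ} (hl' : l0 ≤ l) (hla : l ≤ |a|) (s : ℝ) (m : ℕ) {f f' : ℕ → ℝ → ℝ}
    (d : ∀ k x, HasDerivAt (f k) (f' k x) x) (c : ∀ k, Continuous (f' k))
    (p : ∀ k, Periodic (f k) 1) (b : ∀ k x, |f k x| ≤ 1) {V : ℝ}
    (hV : ∀ k, ∫ x in (0:ℝ)..1, |f' k x| ≤ V) :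
    |ZZc a l s f (m + 1) - mn f (m + 1) * ZZc a l s f m| ≤
      (1 - mn f (m + 1)) * ((l0 + 5 * V) / l) + 2 * (l / |a|) := by
  have hfc : ∀ k, Continuous (f k) := fun k =>
    continuous_iff_continuousAt.2 fun t => (d k t).continuousAt
  have hPc := PP_cont a s hfc m
  have hPc1 := PP_cont a s hfc (m + 1)
  have hcc := chi_cont a l s m
  have hcc1 : Continuous (chi a l s (m + 1)) := chi_cont a l s (m + 1)
  have hXc := Xt_cont a s (m + 1)
  have hrc := rk_cont a l s (m + 1)
  have hf1 := hfc (m + 1)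
  have e1 : ZZc a l s f (m + 1) - mn f (m + 1) * ZZc a l s f m =
      (∫ t in (0:ℝ)..1, chi a l s m t * PP a s f m t *
        (f (m + 1) (X a s (m + 1) t) - mn f (m + 1))) -
      ∫ t in (0:ℝ)..1, (chi a l s m t * (1 - rk a l s (m + 1) t)) * PP a s f (m + 1) t := by
    unfold ZZc
    rw [← intervalIntegral.integral_const_mul, ← intervalIntegral.integral_sub
      (Continuous.intervalIntegrable (by fun_prop) _ _)
      (Continuous.intervalIntegrable (by fun_prop) _ _),
      ← intervalIntegral.integral_sub (Continuous.intervalIntegrable (by fun_prop) _ _)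
        (Continuous.intervalIntegrable (by fun_prop) _ _)]
    apply intervalIntegral.integral_congr
    intro t _
    simp only
    have h1 : chi a l s (m + 1) t = chi a l s m t * rk a l s (m + 1) t := rfl
    have h2 : PP a s f (m + 1) t = PP a s f m t * f (m + 1) (X a s (m + 1) t) := rfl
    rw [h1, h2]
    ring
  have hsecond : |∫ t in (0:ℝ)..1, (chi a l s m t * (1 - rk a l s (m + 1) t)) *
      PP a s f (m + 1) t| ≤ 2 * (l / |a|) := by
    refine le_trans ?_ (loss hl' hla s m)
    have h3 := intervalIntegral.norm_integral_le_abs_of_norm_le (a := 0) (b := 1) (μ := volume)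
      (f := fun t => (chi a l s m t * (1 - rk a l s (m + 1) t)) * PP a s f (m + 1) t)
      (g := fun t => chi a l s m t * (1 - rk a l s (m + 1) t))
      (Filter.Eventually.of_forall fun t => by
        have hr0 : 0 ≤ 1 - rk a l s (m + 1) t := sub_nonneg.2 (rho_le_one _)
        have hc0 : 0 ≤ chi a l s m t * (1 - rk a l s (m + 1) t) :=
          mul_nonneg (chi_mem a l s m t).1 hr0
        rw [norm_mul, norm_eq_abs, norm_eq_abs, abs_of_nonneg hc0]
        exact mul_le_of_le_one_right hc0 (PP_le a s b (m + 1) t))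
      (Continuous.intervalIntegrable (by fun_prop) _ _)
    refine h3.trans (le_of_eq (abs_of_nonneg ?_))
    exact intervalIntegral.integral_nonneg zero_le_one fun t _ =>
      mul_nonneg (chi_mem a l s m t).1 (sub_nonneg.2 (rho_le_one _))
  rw [e1]
  exact (abs_sub _ _).trans (add_le_add (step2 hl' hla s m d c p b hV) hsecond)

theorem ZZ_prod2 {a l : ℝ} (hl' : l0 ≤ l) (hla : l ≤ |a|) (s : ℝ) {f f' : ℕ → ℝ → ℝ}
    (d : ∀ k x, HasDerivAt (f k) (f' k x) x) (c : ∀ k, Continuous (f' k))
    (p : ∀ k, Periodic (f k) 1) (b : ∀ k x, |f k x| ≤ 1) {V : ℝ}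
    (hV : ∀ k, ∫ x in (0:ℝ)..1, |f' k x| ≤ V) (n : ℕ) :
    |ZZc a l s f n - ∏ k ∈ Finset.range n, mn f (k + 1)| ≤
      (∑ k ∈ Finset.range n, (1 - mn f (k + 1))) * ((l0 + 5 * V) / l) + n * (2 * (l / |a|)) := by
  induction n with
  | zero =>
    have : ZZc a l s f 0 = 1 := by
      unfold ZZc
      simp [chi, PP]
    rw [this]
    simp
  | succ n ih =>
    have h1 := rec_step2 hl' hla s n d c p b hV
    have e1 : ZZc a l s f (n + 1) - ∏ k ∈ Finset.range (n + 1), mn f (k + 1) =
        (ZZc a l s f (n + 1) - mn f (n + 1) * ZZc a l s f n) +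
          mn f (n + 1) * (ZZc a l s f n - ∏ k ∈ Finset.range n, mn f (k + 1)) := by
      rw [Finset.prod_range_succ]
      ring
    rw [e1]
    refine (abs_add_le _ _).trans ?_
    rw [abs_mul]
    have h2 : |mn f (n + 1)| * |ZZc a l s f n - ∏ k ∈ Finset.range n, mn f (k + 1)| ≤
        1 * |ZZc a l s f n - ∏ k ∈ Finset.range n, mn f (k + 1)| :=
      mul_le_mul_of_nonneg_right (mn_le b _) (abs_nonneg _)
    rw [Finset.sum_range_succ]
    push_cast
    linarith

/-- **the joint law of the positions**, on every horizontal line -/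
theorem law2 {a l : ℝ} (hl' : l0 ≤ l) (hla : l ≤ |a|) (s : ℝ) {f f' : ℕ → ℝ → ℝ}
    (d : ∀ k x, HasDerivAt (f k) (f' k x) x) (c : ∀ k, Continuous (f' k))
    (p : ∀ k, Periodic (f k) 1) (b : ∀ k x, |f k x| ≤ 1) {V : ℝ}
    (hV : ∀ k, ∫ x in (0:ℝ)..1, |f' k x| ≤ V) (n : ℕ) :
    |(∫ t in (0:ℝ)..1, PP a s f n t) - ∏ k ∈ Finset.range n, mn f (k + 1)| ≤
      (∑ k ∈ Finset.range n, (1 - mn f (k + 1))) * ((l0 + 5 * V) / l) + n * (4 * (l / |a|)) := by
  have hl : 16 ≤ l := l0_ge.trans hl'
  have hl0 : 0 < l := by linarith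
  have hfc : ∀ k, Continuous (f k) := fun k =>
    continuous_iff_continuousAt.2 fun t => (d k t).continuousAt
  have hPc := PP_cont a s hfc n
  have hcc := chi_cont a l s n
  have h1 := ZZ_prod2 hl' hla s d c p b hV n
  have e1 : (∫ t in (0:ℝ)..1, PP a s f n t) - ∏ k ∈ Finset.range n, mn f (k + 1) =
      (∫ t in (0:ℝ)..1, (1 - chi a l s n t) * PP a s f n t) +
      (ZZc a l s f n - ∏ k ∈ Finset.range n, mn f (k + 1)) := by
    unfold ZZc
    rw [← add_sub_assoc, ← intervalIntegral.integral_add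
      (Continuous.intervalIntegrable (by fun_prop) _ _)
      (Continuous.intervalIntegrable (by fun_prop) _ _)]
    congr 1
    apply intervalIntegral.integral_congr
    intro t _
    simp only
    ring
  rw [e1]
  refine (abs_add_le _ _).trans ?_
  have h3 := intervalIntegral.norm_integral_le_abs_of_norm_le (a := 0) (b := 1) (μ := volume)
    (f := fun t => (1 - chi a l s n t) * PP a s f n t)
    (g := fun t => 1 - chi a l s n t)
    (Filter.Eventually.of_forall fun t => by
      have hc0 : 0 ≤ 1 - chi a l s n t := sub_nonneg.2 (chi_mem a l s n t).2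
      rw [norm_mul, norm_eq_abs, norm_eq_abs, abs_of_nonneg hc0]
      exact mul_le_of_le_one_right hc0 (PP_le a s b n t))
    (Continuous.intervalIntegrable (by fun_prop) _ _)
  rw [abs_of_nonneg (intervalIntegral.integral_nonneg zero_le_one fun t _ =>
    sub_nonneg.2 (chi_mem a l s n t).2), norm_eq_abs] at h3
  have h4 := chi_loss hl' hla s n
  have e2 : (n : ℝ) * (4 * (l / |a|)) = n * (2 * (l / |a|)) + n * (2 * (l / |a|)) := by ring
  rw [e2]
  linarith

end Pool.Agent.X25.PV
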