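import Pool.Agent.X25.PV.A

set_option autoImplicit false

/-!
# Smooth approximations of the indicators of arcs
-/

namespace Pool.Agent.X25.PV

open Real MeasureTheory Function Filter Topology

/-- smooth approximation, from above, of the indicator of the arc of centre `c` and half-length
`ρ` -/
noncomputable def bump (j : ℕ) (c ρ x : ℝ) : ℝ :=
  smoothTransition ((j:ℝ) * (cos (2 * π * (x - c)) - cos (2 * π * ρ)) + 1)

/-- its derivative -/
noncomputable def bump' (j : ℕ) (c ρ x : ℝ) : ℝ :=
  deriv smoothTransition ((j:ℝ) * (cos (2 * π * (x - c)) - cos (2 * π * ρ)) + 1) *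
    ((j:ℝ) * (-sin (2 * π * (x - c)) * (2 * π)))

theorem bump_deriv (j : ℕ) (c ρ x : ℝ) : HasDerivAt (bump j c ρ) (bump' j c ρ x) x := by
  have h1 : HasDerivAt (fun x : ℝ => 2 * π * (x - c)) (2 * π) x := by
    simpa using ((hasDerivAt_id x).sub_const c).const_mul (2 * π)
  have h2 : HasDerivAt (fun x : ℝ => (j:ℝ) * (cos (2 * π * (x - c)) - cos (2 * π * ρ)) + 1)
      ((j:ℝ) * (-sin (2 * π * (x - c)) * (2 * π))) x :=
    ((h1.cos.sub_const _).const_mul (j:ℝ)).add_const 1
  have h3 : HasDerivAt smoothTransition (deriv smoothTransition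
      ((j:ℝ) * (cos (2 * π * (x - c)) - cos (2 * π * ρ)) + 1))
      ((j:ℝ) * (cos (2 * π * (x - c)) - cos (2 * π * ρ)) + 1) :=
    ((smoothTransition.contDiff (n := 1)).differentiable (by norm_num) _).hasDerivAt
  exact h3.comp x h2

theorem bump'_cont (j : ℕ) (c ρ : ℝ) : Continuous (bump' j c ρ) := by
  have h : Continuous (deriv smoothTransition) :=
    (smoothTransition.contDiff (n := 1)).continuous_deriv (by norm_num)
  unfold bump'
  exact (h.comp (by fun_prop)).mul (by fun_prop)

theorem bump_cont (j : ℕ) (c ρ : ℝ) : Continuous (bump j c ρ) :=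
  continuous_iff_continuousAt.2 fun t => (bump_deriv j c ρ t).continuousAt

theorem cos_shift (x c : ℝ) : cos (2 * π * (x + 1 - c)) = cos (2 * π * (x - c)) := by
  rw [show 2 * π * (x + 1 - c) = 2 * π * (x - c) + 2 * π by ring, cos_add_two_pi]

theorem bump_per (j : ℕ) (c ρ : ℝ) : Periodic (bump j c ρ) 1 := by
  intro x
  unfold bump
  rw [cos_shift]

theorem bump_nonneg (j : ℕ) (c ρ x : ℝ) : 0 ≤ bump j c ρ x := smoothTransition.nonneg _

theorem bump_le (j : ℕ) (c ρ x : ℝ) : bump j c ρ x ≤ 1 := smoothTransition.le_one _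

theorem bump'_int (j : ℕ) (c ρ : ℝ) : ∫ x in (0:ℝ)..1, |bump' j c ρ x| ≤ 2 := by
  have hc := bump'_cont j c ρ
  have hp : Periodic (bump' j c ρ) 1 := der_periodic (bump_deriv j c ρ) (bump_per j c ρ)
  have hp' : Periodic (fun x => |bump' j c ρ x|) 1 := fun x => by
    show |bump' j c ρ (x + 1)| = |bump' j c ρ x|
    rw [hp x]
  have h1 := hp'.intervalIntegral_add_eq (c - 1 / 2) 0
  rw [zero_add] at h1
  rw [← h1]
  have h2 := intervalIntegral.integral_add_adjacent_intervals
    (hc.abs.intervalIntegrable (μ := volume) (c - 1 / 2) c)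
    (hc.abs.intervalIntegrable c (c - 1 / 2 + 1))
  have hpi := pi_pos
  have hd : ∀ w, 0 ≤ deriv smoothTransition w := fun w => smoothTransition.monotone.deriv_nonneg
  have h3 : ∫ x in (c - 1 / 2)..c, |bump' j c ρ x| = bump j c ρ c - bump j c ρ (c - 1 / 2) := by
    rw [← intervalIntegral.integral_eq_sub_of_hasDerivAt (fun t _ => bump_deriv j c ρ t)
      (hc.intervalIntegrable _ _)]
    apply intervalIntegral.integral_congr
    intro x hx
    rw [Set.uIcc_of_le (by linarith)] at hx
    show |bump' j c ρ x| = bump' j c ρ x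
    apply abs_of_nonneg
    unfold bump'
    apply mul_nonneg (hd _)
    apply mul_nonneg (Nat.cast_nonneg j)
    apply mul_nonneg _ (by positivity)
    have : sin (2 * π * (x - c)) ≤ 0 := by
      apply sin_nonpos_of_nonpos_of_neg_pi_le
      · have := hx.2
        nlinarith
      · have := hx.1
        nlinarith
    linarith
  have h4 : ∫ x in c..(c - 1 / 2 + 1), |bump' j c ρ x| =
      bump j c ρ c - bump j c ρ (c - 1 / 2 + 1) := by
    have h5 := intervalIntegral.integral_eq_sub_of_hasDerivAt (a := c) (b := c - 1 / 2 + 1)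
      (fun t _ => bump_deriv j c ρ t) (hc.intervalIntegrable _ _)
    have h6 : ∫ x in c..(c - 1 / 2 + 1), |bump' j c ρ x| =
        ∫ x in c..(c - 1 / 2 + 1), -bump' j c ρ x := by
      apply intervalIntegral.integral_congr
      intro x hx
      rw [Set.uIcc_of_le (by linarith)] at hx
      show |bump' j c ρ x| = -bump' j c ρ x
      apply abs_of_nonpos
      unfold bump'
      apply mul_nonpos_of_nonneg_of_nonpos (hd _)
      apply mul_nonpos_of_nonneg_of_nonpos (Nat.cast_nonneg j)
      apply mul_nonpos_of_nonpos_of_nonneg _ (by positivity)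
      have : 0 ≤ sin (2 * π * (x - c)) := by
        apply sin_nonneg_of_nonneg_of_le_pi
        · have := hx.1
          apply mul_nonneg (by positivity)
          linarith
        · have := hx.2
          nlinarith
      linarith
    rw [h6, intervalIntegral.integral_neg, h5]
    ring
  rw [h3, h4] at h2
  rw [← h2]
  have := bump_le j c ρ c
  have := bump_nonneg j c ρ (c - 1 / 2)
  have := bump_nonneg j c ρ (c - 1 / 2 + 1)
  linarith

/-- the arcs in terms of cosines -/
theorem mem_arc {c ρ x : ℝ} (h0 : 0 ≤ ρ) (h1 : ρ ≤ 1 / 2) :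
    ((x : UnitAddCircle) ∈ Metric.closedBall (c : UnitAddCircle) ρ) ↔
      cos (2 * π * ρ) ≤ cos (2 * π * (x - c)) := by
  have hpi := pi_pos
  rw [Metric.mem_closedBall, dist_eq_norm, ← AddCircle.coe_sub, UnitAddCircle.norm_eq]
  set y := x - c with hy
  have e : cos (2 * π * y) = cos (2 * π * |y - round y|) := by
    have h2 : cos (2 * π * |y - round y|) = cos (2 * π * (y - round y)) := by
      rcases abs_cases (y - round y) with ⟨h, _⟩ | ⟨h, _⟩
      · rw [h]
      · rw [h, mul_neg, cos_neg]
    rw [h2, show 2 * π * (y - round y) = 2 * π * y - (round y : ℤ) * (2 * π) by ring,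
      cos_sub_int_mul_two_pi]
  rw [e]
  have h3 : |y - round y| ≤ 1 / 2 := abs_sub_round y
  have h4 := abs_nonneg (y - round y)
  rw [strictAntiOn_cos.le_iff_ge (a := 2 * π * ρ) (b := 2 * π * |y - round y|)
    ⟨by positivity, by nlinarith⟩ ⟨by positivity, by nlinarith⟩]
  constructor
  · intro h
    exact mul_le_mul_of_nonneg_left h (by positivity)
  · intro h
    exact le_of_mul_le_mul_left h (by positivity)

open Classical in
/-- the indicator of the arc, on the line -/
noncomputable def ind (c ρ x : ℝ) : ℝ :=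
  if (x : UnitAddCircle) ∈ Metric.closedBall (c : UnitAddCircle) ρ then 1 else 0

theorem bump_lim {c ρ : ℝ} (h0 : 0 ≤ ρ) (h1 : ρ ≤ 1 / 2) (x : ℝ) :
    Tendsto (fun j => bump j c ρ x) atTop (𝓝 (ind c ρ x)) := by
  unfold ind
  split_ifs with h
  · rw [mem_arc h0 h1] at h
    apply tendsto_const_nhds.congr'
    refine Eventually.of_forall fun j => ?_
    show (1:ℝ) = bump j c ρ x
    unfold bump
    rw [smoothTransition.one_of_one_le]
    have : 0 ≤ (j:ℝ) * (cos (2 * π * (x - c)) - cos (2 * π * ρ)) :=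
      mul_nonneg (Nat.cast_nonneg j) (by linarith)
    linarith
  · rw [mem_arc h0 h1, not_le] at h
    apply tendsto_const_nhds.congr'
    obtain ⟨J, hJ⟩ := exists_nat_gt (1 / (cos (2 * π * ρ) - cos (2 * π * (x - c))))
    have hpos : 0 < cos (2 * π * ρ) - cos (2 * π * (x - c)) := by linarith
    rw [div_lt_iff₀ hpos] at hJ
    filter_upwards [eventually_ge_atTop J] with j hj
    show (0:ℝ) = bump j c ρ x
    unfold bump
    rw [smoothTransition.zero_of_nonpos]
    have : (J:ℝ) * (cos (2 * π * ρ) - cos (2 * π * (x - c))) ≤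
        j * (cos (2 * π * ρ) - cos (2 * π * (x - c))) :=
      mul_le_mul_of_nonneg_right (by exact_mod_cast hj) hpos.le
    nlinarith

theorem ind_mem (c ρ x : ℝ) : 0 ≤ ind c ρ x ∧ ind c ρ x ≤ 1 := by
  unfold ind
  split_ifs <;> norm_num

/-- the length of an arc -/
theorem ind_int (c : ℝ) {ρ : ℝ} (h0 : 0 ≤ ρ) (h1 : ρ ≤ 1 / 2) :
    ∫ x in (0:ℝ)..1, ind c ρ x = 2 * ρ := by
  have h := UnitAddCircle.intervalIntegral_preimage 0
    (fun x : UnitAddCircle => Set.indicator (Metric.closedBall (c : UnitAddCircle) ρ)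
      (fun _ => (1:ℝ)) x)
  rw [zero_add] at h
  have e : ∫ x in (0:ℝ)..1, ind c ρ x = ∫ x in (0:ℝ)..1,
      Set.indicator (Metric.closedBall (c : UnitAddCircle) ρ) (fun _ => (1:ℝ))
        (x : UnitAddCircle) := by
    apply intervalIntegral.integral_congr
    intro x _
    show ind c ρ x = Set.indicator (Metric.closedBall (c : UnitAddCircle) ρ) (fun _ => (1:ℝ))
      (x : UnitAddCircle)
    by_cases hx : (x : UnitAddCircle) ∈ Metric.closedBall (c : UnitAddCircle) ρ
    · rw [Set.indicator_of_mem hx]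
      unfold ind
      rw [if_pos hx]
    · rw [Set.indicator_of_notMem hx]
      unfold ind
      rw [if_neg hx]
  rw [e, h, integral_indicator_const _ Metric.isClosed_closedBall.measurableSet, measureReal_def,
    AddCircle.volume_closedBall, smul_eq_mul, mul_one, ENNReal.toReal_ofReal
      (le_min zero_le_one (by linarith)), min_eq_right (by linarith)]

end Pool.Agent.X25.PV
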