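import Pool.Agent.X25.PV.B

set_option autoImplicit false

/-!
# The joint law of the visits to arcs
-/

namespace Pool.Agent.X25.PV

open Real MeasureTheory Function Filter Topology Pool.Agent.TH705.SM Pool.Agent.X100.SM

/-- smooth version of `∏ z_i ^ 1[x ∈ arc i]` -/
noncomputable def Fs {r : ℕ} (j : ℕ) (z c ρ : Fin r → ℝ) (x : ℝ) : ℝ :=
  ∏ i, (1 - (1 - z i) * bump j (c i) (ρ i) x)

/-- its derivative -/
noncomputable def Fs' {r : ℕ} (j : ℕ) (z c ρ : Fin r → ℝ) (x : ℝ) : ℝ :=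
  ∑ i, (∏ i' ∈ Finset.univ.erase i, (1 - (1 - z i') * bump j (c i') (ρ i') x)) *
    (-((1 - z i) * bump' j (c i) (ρ i) x))

theorem Fs_deriv {r : ℕ} (j : ℕ) (z c ρ : Fin r → ℝ) (x : ℝ) :
    HasDerivAt (Fs j z c ρ) (Fs' j z c ρ x) x := by
  have h := HasDerivAt.fun_finsetProd (u := (Finset.univ : Finset (Fin r)))
    (f := fun i x => 1 - (1 - z i) * bump j (c i) (ρ i) x)
    (f' := fun i => -((1 - z i) * bump' j (c i) (ρ i) x)) (x := x)
    (fun i _ => ((bump_deriv j (c i) (ρ i) x).const_mul (1 - z i)).const_sub 1)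
  simp only [smul_eq_mul] at h
  exact h

theorem Fs'_cont {r : ℕ} (j : ℕ) (z c ρ : Fin r → ℝ) : Continuous (Fs' j z c ρ) := by
  unfold Fs'
  refine continuous_finsetSum _ fun i _ => ?_
  refine (continuous_finsetProd _ fun i' _ => ?_).mul
    (continuous_const.mul (bump'_cont j (c i) (ρ i))).neg
  exact continuous_const.sub (continuous_const.mul (bump_cont j (c i') (ρ i')))

theorem fac_mem {z b : ℝ} (hz : 0 ≤ z ∧ z ≤ 1) (h0 : 0 ≤ b) (h1 : b ≤ 1) :
    0 ≤ 1 - (1 - z) * b ∧ 1 - (1 - z) * b ≤ 1 := by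
  have h2 : 0 ≤ (1 - z) * b := mul_nonneg (by linarith) h0
  have h3 : (1 - z) * b ≤ 1 := mul_le_one₀ (by linarith) h0 h1
  constructor <;> linarith

theorem Fs_mem {r : ℕ} (j : ℕ) {z : Fin r → ℝ} (hz : ∀ i, 0 ≤ z i ∧ z i ≤ 1) (c ρ : Fin r → ℝ)
    (x : ℝ) : 0 ≤ Fs j z c ρ x ∧ Fs j z c ρ x ≤ 1 :=
  ⟨Finset.prod_nonneg fun i _ => (fac_mem (hz i) (bump_nonneg _ _ _ _) (bump_le _ _ _ _)).1,
    Finset.prod_le_one (fun i _ => (fac_mem (hz i) (bump_nonneg _ _ _ _) (bump_le _ _ _ _)).1)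
      fun i _ => (fac_mem (hz i) (bump_nonneg _ _ _ _) (bump_le _ _ _ _)).2⟩

theorem Fs_per {r : ℕ} (j : ℕ) (z c ρ : Fin r → ℝ) : Periodic (Fs j z c ρ) 1 := by
  intro x
  unfold Fs
  exact Finset.prod_congr rfl fun i _ => by rw [bump_per j (c i) (ρ i) x]

theorem Fs'_int {r : ℕ} (j : ℕ) {z : Fin r → ℝ} (hz : ∀ i, 0 ≤ z i ∧ z i ≤ 1)
    (c ρ : Fin r → ℝ) : ∫ x in (0:ℝ)..1, |Fs' j z c ρ x| ≤ 2 * r := by
  have h1 : ∀ x, |Fs' j z c ρ x| ≤ ∑ i, |bump' j (c i) (ρ i) x| := by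
    intro x
    unfold Fs'
    refine (Finset.abs_sum_le_sum_abs _ _).trans (Finset.sum_le_sum fun i _ => ?_)
    rw [abs_mul, abs_neg, abs_mul]
    have h2 : |∏ i' ∈ Finset.univ.erase i, (1 - (1 - z i') * bump j (c i') (ρ i') x)| ≤ 1 := by
      rw [abs_of_nonneg (Finset.prod_nonneg fun i _ =>
        (fac_mem (hz i) (bump_nonneg _ _ _ _) (bump_le _ _ _ _)).1)]
      exact Finset.prod_le_one (fun i _ =>
        (fac_mem (hz i) (bump_nonneg _ _ _ _) (bump_le _ _ _ _)).1)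
        fun i _ => (fac_mem (hz i) (bump_nonneg _ _ _ _) (bump_le _ _ _ _)).2
    have h3 : |1 - z i| ≤ 1 := by
      rw [abs_le]
      have := hz i
      constructor <;> linarith [this.1, this.2]
    calc _ ≤ 1 * (1 * |bump' j (c i) (ρ i) x|) := by
          apply mul_le_mul h2 _ (by positivity) zero_le_one
          exact mul_le_mul_of_nonneg_right h3 (abs_nonneg _)
      _ = _ := by ring
  have hi : ∀ i, IntervalIntegrable (fun x => |bump' j (c i) (ρ i) x|) volume 0 1 := fun i =>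
    (bump'_cont j (c i) (ρ i)).abs.intervalIntegrable _ _
  have hc : Continuous (fun x => ∑ i, |bump' j (c i) (ρ i) x|) :=
    continuous_finsetSum _ fun i _ => (bump'_cont j (c i) (ρ i)).abs
  have h4 := intervalIntegral.integral_mono_on zero_le_one
    ((Fs'_cont j z c ρ).abs.intervalIntegrable (μ := volume) 0 1) (hc.intervalIntegrable 0 1)
    (fun x _ => h1 x)
  refine h4.trans ?_
  rw [intervalIntegral.integral_finsetSum (fun i _ => hi i)]
  refine (Finset.sum_le_sum fun i _ => bump'_int j (c i) (ρ i)).trans (le_of_eq ?_)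
  simp
  ring

theorem Fs_law {a l : ℝ} (hl' : l0 ≤ l) (hla : l ≤ |a|) (s : ℝ) {r : ℕ} {z : Fin r → ℝ}
    (hz : ∀ i, 0 ≤ z i ∧ z i ≤ 1) (c ρ : ℕ → Fin r → ℝ) (n j : ℕ) :
    |(∫ t in (0:ℝ)..1, ∏ k ∈ Finset.range n, Fs j z (c k) (ρ k) (X a s (k + 1) t)) -
        ∏ k ∈ Finset.range n, ∫ x in (0:ℝ)..1, Fs j z (c k) (ρ k) x| ≤
      (∑ k ∈ Finset.range n, (1 - ∫ x in (0:ℝ)..1, Fs j z (c k) (ρ k) x)) *
        ((l0 + 10 * r) / l) + n * (4 * (l / |a|)) := by
  have h := law2 hl' hla s (f := fun k x => Fs j z (c (k - 1)) (ρ (k - 1)) x)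
    (f' := fun k x => Fs' j z (c (k - 1)) (ρ (k - 1)) x)
    (fun k x => Fs_deriv j z _ _ x) (fun k => Fs'_cont j z _ _) (fun k => Fs_per j z _ _)
    (fun k x => by
      rw [abs_of_nonneg (Fs_mem j hz _ _ x).1]
      exact (Fs_mem j hz _ _ x).2) (V := 2 * r) (fun k => Fs'_int j hz _ _) n
  simp only [PP_eq, mn, Nat.add_sub_cancel] at h
  rw [show 5 * (2 * (r:ℝ)) = 10 * r by ring] at h
  exact h

/-- the generating function of the visits at one time -/
noncomputable def Fi {r : ℕ} (z c ρ : Fin r → ℝ) (x : ℝ) : ℝ :=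
  ∏ i, (1 - (1 - z i) * ind (c i) (ρ i) x)

theorem Fi_mem {r : ℕ} {z : Fin r → ℝ} (hz : ∀ i, 0 ≤ z i ∧ z i ≤ 1) (c ρ : Fin r → ℝ)
    (x : ℝ) : 0 ≤ Fi z c ρ x ∧ Fi z c ρ x ≤ 1 :=
  ⟨Finset.prod_nonneg fun i _ => (fac_mem (hz i) (ind_mem _ _ _).1 (ind_mem _ _ _).2).1,
    Finset.prod_le_one (fun i _ => (fac_mem (hz i) (ind_mem _ _ _).1 (ind_mem _ _ _).2).1)
      fun i _ => (fac_mem (hz i) (ind_mem _ _ _).1 (ind_mem _ _ _).2).2⟩

theorem Fs_lim {r : ℕ} (z : Fin r → ℝ) {c ρ : Fin r → ℝ} (h0 : ∀ i, 0 ≤ ρ i)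
    (h1 : ∀ i, ρ i ≤ 1 / 2) (x : ℝ) :
    Tendsto (fun j => Fs j z c ρ x) atTop (𝓝 (Fi z c ρ x)) :=
  tendsto_finsetProd _ fun i _ =>
    ((bump_lim (h0 i) (h1 i) x).const_mul (1 - z i)).const_sub 1

theorem Fi_law {a l : ℝ} (hl' : l0 ≤ l) (hla : l ≤ |a|) (s : ℝ) {r : ℕ} {z : Fin r → ℝ}
    (hz : ∀ i, 0 ≤ z i ∧ z i ≤ 1) {c ρ : ℕ → Fin r → ℝ} (h0 : ∀ k i, 0 ≤ ρ k i)
    (h1 : ∀ k i, ρ k i ≤ 1 / 2) (n : ℕ) :
    |(∫ t in (0:ℝ)..1, ∏ k ∈ Finset.range n, Fi z (c k) (ρ k) (X a s (k + 1) t)) -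
        ∏ k ∈ Finset.range n, ∫ x in (0:ℝ)..1, Fi z (c k) (ρ k) x| ≤
      (∑ k ∈ Finset.range n, (1 - ∫ x in (0:ℝ)..1, Fi z (c k) (ρ k) x)) *
        ((l0 + 10 * r) / l) + n * (4 * (l / |a|)) := by
  have hFc : ∀ j k, Continuous (Fs j z (c k) (ρ k)) := fun j k =>
    continuous_iff_continuousAt.2 fun t => (Fs_deriv j z (c k) (ρ k) t).continuousAt
  have t1 : Tendsto (fun j => ∫ t in (0:ℝ)..1, ∏ k ∈ Finset.range n,
      Fs j z (c k) (ρ k) (X a s (k + 1) t)) atTop (𝓝 (∫ t in (0:ℝ)..1,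
        ∏ k ∈ Finset.range n, Fi z (c k) (ρ k) (X a s (k + 1) t))) := by
    apply intervalIntegral.tendsto_integral_filter_of_dominated_convergence (fun _ => 1)
    · refine Eventually.of_forall fun j => ?_
      refine Continuous.aestronglyMeasurable ?_
      exact continuous_finsetProd _ fun k _ => (hFc j k).comp (Xt_cont a s (k + 1))
    · refine Eventually.of_forall fun j => Eventually.of_forall fun t _ => ?_
      rw [norm_eq_abs, abs_of_nonneg (Finset.prod_nonneg fun k _ => (Fs_mem j hz _ _ _).1)]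
      exact Finset.prod_le_one (fun k _ => (Fs_mem j hz _ _ _).1) fun k _ => (Fs_mem j hz _ _ _).2
    · exact intervalIntegrable_const
    · exact Eventually.of_forall fun t _ => tendsto_finsetProd _ fun k _ =>
        Fs_lim z (h0 k) (h1 k) _
  have t2 : ∀ k, Tendsto (fun j => ∫ x in (0:ℝ)..1, Fs j z (c k) (ρ k) x) atTop
      (𝓝 (∫ x in (0:ℝ)..1, Fi z (c k) (ρ k) x)) := by
    intro k
    apply intervalIntegral.tendsto_integral_filter_of_dominated_convergence (fun _ => 1)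
    · exact Eventually.of_forall fun j => (hFc j k).aestronglyMeasurable
    · refine Eventually.of_forall fun j => Eventually.of_forall fun t _ => ?_
      rw [norm_eq_abs, abs_of_nonneg (Fs_mem j hz _ _ _).1]
      exact (Fs_mem j hz _ _ _).2
    · exact intervalIntegrable_const
    · exact Eventually.of_forall fun t _ => Fs_lim z (h0 k) (h1 k) _
  have t3 := (t1.sub (tendsto_finsetProd (Finset.range n) fun k _ => t2 k)).abs
  have t4 := ((tendsto_finsetSum (Finset.range n) fun k _ => (t2 k).const_sub 1).mul_const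
    ((l0 + 10 * r) / l)).add_const ((n:ℝ) * (4 * (l / |a|)))
  exact le_of_tendsto_of_tendsto t3 t4 (Eventually.of_forall fun j =>
    Fs_law hl' hla s hz c ρ n j)

theorem one_sub_sum_le {ι : Type*} (s : Finset ι) (u : ι → ℝ) (hu : ∀ i ∈ s, 0 ≤ u i ∧ u i ≤ 1) :
    1 - ∑ i ∈ s, u i ≤ ∏ i ∈ s, (1 - u i) := by
  classical
  induction s using Finset.induction_on with
  | empty => simp
  | insert i s hi ih =>
    rw [Finset.sum_insert hi, Finset.prod_insert hi]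
    have h1 := ih fun k hk => hu k (Finset.mem_insert_of_mem hk)
    have h2 := hu i (Finset.mem_insert_self i s)
    have h3 : ∏ i ∈ s, (1 - u i) ≤ 1 := Finset.prod_le_one
      (fun k hk => by linarith [(hu k (Finset.mem_insert_of_mem hk)).2])
      (fun k hk => by linarith [(hu k (Finset.mem_insert_of_mem hk)).1])
    nlinarith [h2.1]

/-- **the law with the optimal cutoff** -/
theorem Fi_opt {a : ℝ} (ha : 1 ≤ |a|) (s : ℝ) {r : ℕ} {z : Fin r → ℝ}
    (hz : ∀ i, 0 ≤ z i ∧ z i ≤ 1) {c ρ : ℕ → Fin r → ℝ} (h0 : ∀ k i, 0 ≤ ρ k i)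
    (h1 : ∀ k i, ρ k i ≤ 1 / 2) (n : ℕ) {Λ : ℝ} (hΛ1 : ∑ k ∈ Finset.range n,
      (1 - ∫ x in (0:ℝ)..1, Fi z (c k) (ρ k) x) ≤ Λ) :
    |(∫ t in (0:ℝ)..1, ∏ k ∈ Finset.range n, Fi z (c k) (ρ k) (X a s (k + 1) t)) -
        ∏ k ∈ Finset.range n, ∫ x in (0:ℝ)..1, Fi z (c k) (ρ k) x| ≤
      (l0 + 10 * r + 4) * √((1 + Λ) * n / |a|) := by
  have h16 := l0_ge
  set M := |(∫ t in (0:ℝ)..1, ∏ k ∈ Finset.range n, Fi z (c k) (ρ k) (X a s (k + 1) t)) -
        ∏ k ∈ Finset.range n, ∫ x in (0:ℝ)..1, Fi z (c k) (ρ k) x| with hM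
  rcases Nat.eq_zero_or_pos n with rfl | hn
  · rw [hM]
    simp
  have hn' : (1:ℝ) ≤ n := by exact_mod_cast hn
  have hI : ∀ k, 0 ≤ ∫ x in (0:ℝ)..1, Fi z (c k) (ρ k) x ∧
      ∫ x in (0:ℝ)..1, Fi z (c k) (ρ k) x ≤ 1 := by
    intro k
    refine ⟨intervalIntegral.integral_nonneg zero_le_one fun x _ => (Fi_mem hz _ _ x).1, ?_⟩
    have h := intervalIntegral.norm_integral_le_of_norm_le_const (a := 0) (b := 1) (C := 1)
      (f := Fi z (c k) (ρ k)) (fun x _ => by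
        rw [norm_eq_abs, abs_of_nonneg (Fi_mem hz _ _ x).1]
        exact (Fi_mem hz _ _ x).2)
    rw [norm_eq_abs, sub_zero, abs_one, mul_one] at h
    exact (le_abs_self _).trans h
  set S := ∑ k ∈ Finset.range n, (1 - ∫ x in (0:ℝ)..1, Fi z (c k) (ρ k) x) with hS
  have hS0 : 0 ≤ S := Finset.sum_nonneg fun k _ => sub_nonneg.2 (hI k).2
  have hSn : S ≤ n := by
    have : S ≤ ∑ k ∈ Finset.range n, (1:ℝ) := Finset.sum_le_sum fun k _ => by
      linarith [(hI k).1]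
    simpa using this
  have ha0 : 0 < |a| := by linarith
  have hM1 : M ≤ 1 := by
    have e1 : 0 ≤ ∫ t in (0:ℝ)..1, ∏ k ∈ Finset.range n, Fi z (c k) (ρ k) (X a s (k + 1) t) :=
      intervalIntegral.integral_nonneg zero_le_one fun x _ =>
        Finset.prod_nonneg fun k _ => (Fi_mem hz _ _ _).1
    have e2 : ∫ t in (0:ℝ)..1, ∏ k ∈ Finset.range n, Fi z (c k) (ρ k) (X a s (k + 1) t) ≤ 1 := by
      have h := intervalIntegral.norm_integral_le_of_norm_le_const (a := 0) (b := 1) (C := 1)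
        (f := fun t => ∏ k ∈ Finset.range n, Fi z (c k) (ρ k) (X a s (k + 1) t)) (fun x _ => by
          rw [norm_eq_abs, abs_of_nonneg (Finset.prod_nonneg fun k _ => (Fi_mem hz _ _ _).1)]
          exact Finset.prod_le_one (fun k _ => (Fi_mem hz _ _ _).1)
            fun k _ => (Fi_mem hz _ _ _).2)
      rw [norm_eq_abs, sub_zero, abs_one, mul_one] at h
      exact (le_abs_self _).trans h
    have e3 : 0 ≤ ∏ k ∈ Finset.range n, ∫ x in (0:ℝ)..1, Fi z (c k) (ρ k) x :=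
      Finset.prod_nonneg fun k _ => (hI k).1
    have e4 : ∏ k ∈ Finset.range n, ∫ x in (0:ℝ)..1, Fi z (c k) (ρ k) x ≤ 1 :=
      Finset.prod_le_one (fun k _ => (hI k).1) fun k _ => (hI k).2
    rw [hM, abs_le]
    constructor <;> linarith
  -- monotonicity in `Λ`
  have hmono : √((1 + S) * n / |a|) ≤ √((1 + Λ) * n / |a|) := by
    apply Real.sqrt_le_sqrt
    apply div_le_div_of_nonneg_right _ ha0.le
    apply mul_le_mul_of_nonneg_right _ (by positivity)
    linarith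
  refine le_trans ?_ (mul_le_mul_of_nonneg_left hmono (by positivity))
  set Q := √((1 + S) * n / |a|) with hQ
  have hpos : 0 < (1 + S) * n / |a| := by positivity
  have hQ0 : 0 < Q := Real.sqrt_pos.2 hpos
  have hQ2 : Q ^ 2 = (1 + S) * n / |a| := Real.sq_sqrt hpos.le
  have hQ3 : Q ^ 2 * |a| = (1 + S) * n := by rw [hQ2]; field_simp
  have hr0 : (0:ℝ) ≤ 10 * r := by positivity
  rcases le_or_gt (1 / l0) Q with h2 | h2
  · have h3 : 1 ≤ l0 * Q := by
      rw [div_le_iff₀ (by linarith)] at h2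
      linarith
    nlinarith
  · have h2' : Q * l0 < 1 := by rwa [lt_div_iff₀ (by linarith)] at h2
    set l := (1 + S) / Q with hl
    have hl1 : l0 ≤ l := by
      rw [hl, le_div_iff₀ hQ0]
      nlinarith
    have hQ1 : Q ≤ 1 := by nlinarith
    have hl2 : l ≤ |a| := by
      rw [hl, div_le_iff₀ hQ0]
      have h3 : Q ^ 2 * |a| ≤ Q * |a| := by
        apply mul_le_mul_of_nonneg_right _ ha0.le
        nlinarith
      have h4 : (1 + S) * 1 ≤ (1 + S) * n := mul_le_mul_of_nonneg_left hn' (by linarith)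
      linarith
    have hlp : 0 < l := by linarith
    have h5 := Fi_law hl1 hl2 s hz (c := c) h0 h1 n
    rw [← hM, ← hS] at h5
    have h6 : S * ((l0 + 10 * r) / l) ≤ (l0 + 10 * r) * Q := by
      have e : S * ((l0 + 10 * r) / l) = (l0 + 10 * r) * Q * (S / (1 + S)) := by
        rw [hl]
        field_simp
      rw [e]
      apply mul_le_of_le_one_right (by positivity)
      rw [div_le_one (by linarith)]
      linarith
    have h7 : (n : ℝ) * (4 * (l / |a|)) = 4 * Q := by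
      have e : |a| = (1 + S) * n / Q ^ 2 := by
        rw [← hQ3]
        field_simp
      rw [e, hl]
      field_simp
    rw [h7] at h5
    linarith

end Pool.Agent.X25.PV
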