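import Mathlib

set_option autoImplicit false

/-!
# From generating functions to joint laws; products in triangular arrays
-/

namespace Pool.Agent.X25.PV

open Real MeasureTheory Function Filter Topology

/-- products in triangular arrays -/
theorem prod_lim {n : ℕ → ℕ} {u : ℕ → ℕ → ℝ} {L : ℝ} (h0 : ∀ j k, 0 ≤ u j k)
    (hs : ∀ ε : ℝ, 0 < ε → ∀ᶠ j in atTop, ∀ k, k < n j → u j k ≤ ε)
    (hL : Tendsto (fun j => ∑ k ∈ Finset.range (n j), u j k) atTop (𝓝 L)) :
    Tendsto (fun j => ∏ k ∈ Finset.range (n j), (1 - u j k)) atTop (𝓝 (exp (-L))) := by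
  rw [tendsto_order]
  constructor
  · intro a' ha'
    have h1 : Tendsto (fun ε : ℝ => exp (-(L / (1 - ε)))) (𝓝[>] 0) (𝓝 (exp (-L))) := by
      have h2 : ContinuousAt (fun ε : ℝ => exp (-(L / (1 - ε)))) 0 := by
        apply ContinuousAt.rexp
        apply ContinuousAt.neg
        apply ContinuousAt.div continuousAt_const (by fun_prop)
        norm_num
      have h3 := h2.tendsto
      simp only [sub_zero, div_one] at h3
      exact h3.mono_left nhdsWithin_le_nhds
    have h2 : ∀ᶠ ε : ℝ in 𝓝[>] 0, a' < exp (-(L / (1 - ε))) ∧ ε < 1 ∧ 0 < ε := by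
      filter_upwards [(tendsto_order.1 h1).1 a' ha', self_mem_nhdsWithin,
        nhdsWithin_le_nhds (Iio_mem_nhds (zero_lt_one' ℝ))] with ε e1 e2 e3
      exact ⟨e1, e3, e2⟩
    obtain ⟨ε, e1, e2, e3⟩ := h2.exists
    have h4 : Tendsto (fun j => exp (-((∑ k ∈ Finset.range (n j), u j k) / (1 - ε)))) atTop
        (𝓝 (exp (-(L / (1 - ε))))) := ((hL.div_const (1 - ε)).neg).rexp
    filter_upwards [(tendsto_order.1 h4).1 a' e1, hs ε e3] with j h5 h6
    refine h5.trans_le ?_
    rw [Finset.sum_div, ← Finset.sum_neg_distrib, exp_sum]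
    apply Finset.prod_le_prod (fun k _ => (exp_pos _).le)
    intro k hk
    have h7 := h6 k (Finset.mem_range.1 hk)
    have h8 := h0 j k
    have h9 : 0 < 1 - u j k := by linarith
    have h10 : u j k / (1 - u j k) ≤ u j k / (1 - ε) :=
      div_le_div_of_nonneg_left h8 (by linarith) (by linarith)
    have h11 := add_one_le_exp (u j k / (1 - u j k))
    have h12 : u j k / (1 - u j k) + 1 = 1 / (1 - u j k) := by
      field_simp
      ring
    have h13 : 1 / (1 - u j k) ≤ exp (u j k / (1 - ε)) := by
      rw [← h12]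
      exact h11.trans (exp_le_exp.2 h10)
    rw [exp_neg, ← one_div]
    rw [div_le_iff₀ h9] at h13
    rw [div_le_iff₀ (exp_pos _)]
    linarith
  · intro b' hb'
    have h4 : Tendsto (fun j => exp (-(∑ k ∈ Finset.range (n j), u j k))) atTop
        (𝓝 (exp (-L))) := hL.neg.rexp
    filter_upwards [(tendsto_order.1 h4).2 b' hb', hs 1 one_pos] with j h5 h6
    refine lt_of_le_of_lt ?_ h5
    rw [← Finset.sum_neg_distrib, exp_sum]
    apply Finset.prod_le_prod
    · intro k hk
      linarith [h6 k (Finset.mem_range.1 hk)]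
    · intro k _
      exact one_sub_le_exp_neg (u j k)

/-- the generating function of the Poisson law -/
theorem poisson_gf (lam z : ℝ) :
    HasSum (fun m : ℕ => exp (-lam) * lam ^ m / (m.factorial : ℝ) * z ^ m)
      (exp (-((1 - z) * lam))) := by
  have h := NormedSpace.expSeries_div_hasSum_exp (𝔸 := ℝ) (z * lam)
  rw [← Real.exp_eq_exp_ℝ] at h
  have h2 := h.mul_left (exp (-lam))
  rw [← exp_add] at h2
  rw [show -((1 - z) * lam) = -lam + z * lam by ring]
  refine h2.congr_fun ?_ |> fun h => h
  intro m
  rw [mul_pow]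
  ring

/-- **extraction of a coefficient** -/
theorem one_dim {Ω : Type*} [MeasurableSpace Ω] {μ : Measure Ω} [IsProbabilityMeasure μ]
    {N : ℕ → Ω → ℕ} (hN : ∀ j, Measurable (N j)) {W : ℕ → Ω → ℝ} (hW : ∀ j, Measurable (W j))
    (hW0 : ∀ j x, 0 ≤ W j x) (hW1 : ∀ j x, W j x ≤ 1) {p : ℕ → ℝ} (hp0 : ∀ m, 0 ≤ p m)
    (hp : Summable p) (hp1 : ∑' m, p m ≤ 1)
    (h : ∀ z : ℝ, 0 ≤ z → z ≤ 1 → Tendsto (fun j => ∫ x, W j x * z ^ (N j x) ∂μ) atTop
      (𝓝 (∑' m, p m * z ^ m))) (m : ℕ) :
    Tendsto (fun j => ∫ x, W j x * (if N j x = m then 1 else 0) ∂μ) atTop (𝓝 (p m)) := by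
  have hNi : ∀ j i, Measurable (fun x => if N j x = i then (1:ℝ) else 0) := fun j i =>
    Measurable.ite (hN j (measurableSet_singleton i)) measurable_const measurable_const
  have hint : ∀ (f : Ω → ℝ), Measurable f → (∀ x, |f x| ≤ 1) → Integrable f μ := fun f hf hb =>
    Integrable.of_bound hf.aestronglyMeasurable 1 (Eventually.of_forall hb)
  have hWi : ∀ j i, Integrable (fun x => W j x * (if N j x = i then (1:ℝ) else 0)) μ := by
    intro j i
    apply hint _ ((hW j).mul (hNi j i))
    intro x
    show |W j x * (if N j x = i then (1:ℝ) else 0)| ≤ 1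
    rw [abs_mul, abs_of_nonneg (hW0 j x)]
    apply mul_le_one₀ (hW1 j x) (abs_nonneg _)
    split_ifs <;> norm_num
  have hWz : ∀ j (z : ℝ), 0 ≤ z → z ≤ 1 → Integrable (fun x => W j x * z ^ (N j x)) μ := by
    intro j z h0 h1
    apply hint
    · exact (hW j).mul ((measurable_of_countable (fun k : ℕ => z ^ k)).comp (hN j))
    · intro x
      rw [abs_mul, abs_of_nonneg (hW0 j x), abs_of_nonneg (pow_nonneg h0 _)]
      exact mul_le_one₀ (hW1 j x) (pow_nonneg h0 _) (pow_le_one₀ h0 h1)
  -- the remainders
  have hR : ∀ j (z : ℝ), 0 ≤ z → z ≤ 1 → ∀ m : ℕ,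
      0 ≤ (∫ x, W j x * z ^ (N j x) ∂μ) - ∑ i ∈ Finset.range (m + 1),
        z ^ i * ∫ x, W j x * (if N j x = i then 1 else 0) ∂μ ∧
      (∫ x, W j x * z ^ (N j x) ∂μ) - ∑ i ∈ Finset.range (m + 1),
        z ^ i * ∫ x, W j x * (if N j x = i then 1 else 0) ∂μ ≤ z ^ (m + 1) := by
    intro j z h0 h1 m
    have e : (∫ x, W j x * z ^ (N j x) ∂μ) - ∑ i ∈ Finset.range (m + 1),
        z ^ i * ∫ x, W j x * (if N j x = i then 1 else 0) ∂μ =
        ∫ x, (W j x * z ^ (N j x) - ∑ i ∈ Finset.range (m + 1),
          z ^ i * (W j x * (if N j x = i then 1 else 0))) ∂μ := by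
      rw [integral_sub (hWz j z h0 h1) (integrable_finsetSum _ fun i _ => (hWi j i).const_mul _),
        integral_finsetSum _ fun i _ => (hWi j i).const_mul _]
      simp only [integral_const_mul]
    have hpt : ∀ x, W j x * z ^ (N j x) - ∑ i ∈ Finset.range (m + 1),
          z ^ i * (W j x * (if N j x = i then 1 else 0)) =
        if N j x < m + 1 then 0 else W j x * z ^ (N j x) := by
      intro x
      have e1 : ∑ i ∈ Finset.range (m + 1), z ^ i * (W j x * (if N j x = i then 1 else 0)) =
          ∑ i ∈ Finset.range (m + 1), if N j x = i then W j x * z ^ (N j x) else 0 := by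
        apply Finset.sum_congr rfl
        intro i _
        split_ifs with hi
        · rw [hi]; ring
        · ring
      rw [e1, Finset.sum_ite_eq]
      simp only [Finset.mem_range]
      split_ifs <;> ring
    rw [e]
    simp only [hpt]
    constructor
    · apply integral_nonneg
      intro x
      show 0 ≤ if N j x < m + 1 then 0 else W j x * z ^ (N j x)
      split_ifs
      · exact le_rfl
      · exact mul_nonneg (hW0 j x) (pow_nonneg h0 _)
    · have hle : ∀ x, (if N j x < m + 1 then 0 else W j x * z ^ (N j x)) ≤ z ^ (m + 1) := by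
        intro x
        split_ifs with hx
        · exact pow_nonneg h0 _
        · calc W j x * z ^ (N j x) ≤ 1 * z ^ (N j x) :=
                mul_le_mul_of_nonneg_right (hW1 j x) (pow_nonneg h0 _)
            _ ≤ _ := by
                rw [one_mul]
                exact pow_le_pow_of_le_one h0 h1 (not_lt.1 hx)
      have hi : Integrable (fun x => if N j x < m + 1 then 0 else W j x * z ^ (N j x)) μ := by
        have := (hWz j z h0 h1).sub (integrable_finsetSum (Finset.range (m + 1))
          fun i _ => (hWi j i).const_mul (z ^ i))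
        refine this.congr (Eventually.of_forall fun x => ?_)
        simp only [Pi.sub_apply]
        exact hpt x
      have := integral_mono hi (integrable_const (z ^ (m + 1))) hle
      simpa using this
  have hS : ∀ (z : ℝ), 0 ≤ z → z ≤ 1 → ∀ m : ℕ,
      0 ≤ (∑' i, p i * z ^ i) - ∑ i ∈ Finset.range (m + 1), z ^ i * p i ∧
      (∑' i, p i * z ^ i) - ∑ i ∈ Finset.range (m + 1), z ^ i * p i ≤ z ^ (m + 1) := by
    intro z h0 h1 m
    have hsum : Summable (fun i => p i * z ^ i) :=
      Summable.of_nonneg_of_le (fun i => mul_nonneg (hp0 i) (pow_nonneg h0 _))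
        (fun i => mul_le_of_le_one_right (hp0 i) (pow_le_one₀ h0 h1)) hp
    have e := hsum.sum_add_tsum_nat_add (m + 1)
    have e2 : ∑ i ∈ Finset.range (m + 1), z ^ i * p i =
        ∑ i ∈ Finset.range (m + 1), p i * z ^ i :=
      Finset.sum_congr rfl fun i _ => mul_comm _ _
    rw [e2, ← e, add_sub_cancel_left]
    refine ⟨tsum_nonneg fun i => mul_nonneg (hp0 _) (pow_nonneg h0 _), ?_⟩
    have h3 : Summable (fun i => p (i + (m + 1))) := (summable_nat_add_iff (m + 1)).2 hp
    have h4 : ∑' i, p (i + (m + 1)) * z ^ (i + (m + 1)) ≤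
        ∑' i, p (i + (m + 1)) * z ^ (m + 1) := by
      apply Summable.tsum_le_tsum _ ((summable_nat_add_iff (m + 1)).2 hsum) (h3.mul_right _)
      intro i
      apply mul_le_mul_of_nonneg_left _ (hp0 _)
      exact pow_le_pow_of_le_one h0 h1 (by omega)
    refine h4.trans ?_
    rw [tsum_mul_right]
    apply mul_le_of_le_one_left (pow_nonneg h0 _)
    have h5 := hp.sum_add_tsum_nat_add (m + 1)
    have h6 : 0 ≤ ∑ i ∈ Finset.range (m + 1), p i := Finset.sum_nonneg fun i _ => hp0 i
    linarith
  induction m using Nat.strong_induction_on with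
  | _ m ih =>
    rw [Metric.tendsto_atTop']
    intro ε hε
    set z := min (ε / 4) (1 / 2) with hz
    have hz0 : 0 < z := lt_min (by linarith) (by norm_num)
    have hz1 : z ≤ 1 := (min_le_right _ _).trans (by norm_num)
    have hzε : z ≤ ε / 4 := min_le_left _ _
    have t1 := h z hz0.le hz1
    have t2 : Tendsto (fun j => ∑ i ∈ Finset.range m,
        z ^ i * ∫ x, W j x * (if N j x = i then 1 else 0) ∂μ) atTop
        (𝓝 (∑ i ∈ Finset.range m, z ^ i * p i)) :=
      tendsto_finsetSum _ fun i hi => (ih i (Finset.mem_range.1 hi)).const_mul _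
    have t3 := t1.sub t2
    rw [Metric.tendsto_atTop'] at t3
    obtain ⟨J, hJ⟩ := t3 (z ^ (m + 1)) (pow_pos hz0 _)
    refine ⟨J, fun j hj => ?_⟩
    have h1 := hJ j hj
    rw [Real.dist_eq] at h1 ⊢
    obtain ⟨a1, a2⟩ := hR j z hz0.le hz1 m
    obtain ⟨b1, b2⟩ := hS z hz0.le hz1 m
    rw [Finset.sum_range_succ] at a1 a2 b1 b2
    set A := ∫ x, W j x * (if N j x = m then 1 else 0) ∂μ with hA
    have hzm : 0 < z ^ m := pow_pos hz0 m
    have e : z ^ (m + 1) = z ^ m * z := pow_succ z m
    have h2 : z ^ m * |A - p m| ≤ z ^ m * (2 * z) := by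
      rw [← abs_of_pos hzm, ← abs_mul, abs_of_pos hzm, abs_le]
      rw [abs_lt] at h1
      rw [e] at h1 a2 b2
      constructor <;> nlinarith
    have h3 := le_of_mul_le_mul_left h2 hzm
    linarith

/-- **generating functions determine joint laws**, in the limit -/
theorem joint {Ω : Type*} [MeasurableSpace Ω] {μ : Measure Ω} [IsProbabilityMeasure μ] {r : ℕ}
    {N : ℕ → Fin r → Ω → ℕ} (hN : ∀ j i, Measurable (N j i)) {p : Fin r → ℕ → ℝ}
    (hp0 : ∀ i m, 0 ≤ p i m) (hp : ∀ i, HasSum (p i) 1)
    (h : ∀ z : Fin r → ℝ, (∀ i, 0 ≤ z i ∧ z i ≤ 1) →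
      Tendsto (fun j => ∫ x, ∏ i, z i ^ (N j i x) ∂μ) atTop (𝓝 (∏ i, ∑' m, p i m * z i ^ m)))
    (m : Fin r → ℕ) :
    Tendsto (fun j => μ.real {x | ∀ i, N j i x = m i}) atTop (𝓝 (∏ i, p i (m i))) := by
  classical
  -- one factor
  set g : ℕ → Finset (Fin r) → (Fin r → ℝ) → Fin r → Ω → ℝ := fun j S z i x =>
    if i ∈ S then (if N j i x = m i then 1 else 0) else z i ^ (N j i x) with hg
  have hgm : ∀ j S z i, Measurable (g j S z i) := by
    intro j S z i
    simp only [hg]
    split_ifs
    · exact Measurable.ite (hN j i (measurableSet_singleton _)) measurable_const measurable_const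
    · exact (measurable_of_countable (fun k : ℕ => z i ^ k)).comp (hN j i)
  have hg0 : ∀ j S z i x, (∀ i, 0 ≤ z i ∧ z i ≤ 1) → 0 ≤ g j S z i x ∧ g j S z i x ≤ 1 := by
    intro j S z i x hz
    simp only [hg]
    split_ifs
    · norm_num
    · norm_num
    · exact ⟨pow_nonneg (hz i).1 _, pow_le_one₀ (hz i).1 (hz i).2⟩
  have hG : ∀ i (z : ℝ), 0 ≤ z → z ≤ 1 → 0 ≤ ∑' m, p i m * z ^ m ∧ ∑' m, p i m * z ^ m ≤ 1 := by
    intro i z h0 h1
    refine ⟨tsum_nonneg fun k => mul_nonneg (hp0 i k) (pow_nonneg h0 _), ?_⟩
    rw [← (hp i).tsum_eq]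
    apply Summable.tsum_le_tsum _ _ (hp i).summable
    · intro k
      exact mul_le_of_le_one_right (hp0 i k) (pow_le_one₀ h0 h1)
    · exact Summable.of_nonneg_of_le (fun k => mul_nonneg (hp0 i k) (pow_nonneg h0 _))
        (fun k => mul_le_of_le_one_right (hp0 i k) (pow_le_one₀ h0 h1)) (hp i).summable
  have hpm : ∀ i, p i (m i) ≤ 1 := fun i => by
    rw [← (hp i).tsum_eq]
    exact (hp i).summable.le_tsum _ fun k _ => hp0 i k
  have key : ∀ S : Finset (Fin r), ∀ z : Fin r → ℝ, (∀ i, 0 ≤ z i ∧ z i ≤ 1) →
      Tendsto (fun j => ∫ x, ∏ i, g j S z i x ∂μ) atTop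
        (𝓝 (∏ i, if i ∈ S then p i (m i) else ∑' k, p i k * z i ^ k)) := by
    intro S
    induction S using Finset.induction_on with
    | empty =>
      intro z hz
      simpa [hg] using h z hz
    | insert i0 S hi0 ih =>
      intro z hz
      set K := ∏ i ∈ Finset.univ.erase i0,
        (if i ∈ S then p i (m i) else ∑' k, p i k * z i ^ k) with hK
      have hK0 : 0 ≤ K := Finset.prod_nonneg fun i _ => by
        split_ifs
        · exact hp0 _ _
        · exact (hG i (z i) (hz i).1 (hz i).2).1
      have hK1 : K ≤ 1 := Finset.prod_le_one (fun i _ => by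
        split_ifs
        · exact hp0 _ _
        · exact (hG i (z i) (hz i).1 (hz i).2).1) (fun i _ => by
        split_ifs
        · exact hpm _
        · exact (hG i (z i) (hz i).1 (hz i).2).2)
      have h1 := one_dim (μ := μ) (N := fun j => N j i0) (fun j => hN j i0)
        (W := fun j x => ∏ i ∈ Finset.univ.erase i0, g j S z i x)
        (fun j => Finset.measurable_prod _ fun i _ => hgm j S z i)
        (fun j x => Finset.prod_nonneg fun i _ => (hg0 j S z i x hz).1)
        (fun j x => Finset.prod_le_one (fun i _ => (hg0 j S z i x hz).1)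
          fun i _ => (hg0 j S z i x hz).2)
        (p := fun k => K * p i0 k) (fun k => mul_nonneg hK0 (hp0 _ _))
        ((hp i0).summable.mul_left K) (by
          rw [tsum_mul_left, (hp i0).tsum_eq, mul_one]
          exact hK1) (by
          intro ζ h0 h1
          have hz' : ∀ i, 0 ≤ Function.update z i0 ζ i ∧ Function.update z i0 ζ i ≤ 1 := by
            intro i
            by_cases hi : i = i0
            · subst hi
              rw [Function.update_self]
              exact ⟨h0, h1⟩
            · rw [Function.update_of_ne hi]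
              exact hz i
          have h2 := ih (Function.update z i0 ζ) hz'
          have e1 : ∀ j x, ∏ i, g j S (Function.update z i0 ζ) i x =
              (∏ i ∈ Finset.univ.erase i0, g j S z i x) * ζ ^ (N j i0 x) := by
            intro j x
            rw [← Finset.mul_prod_erase _ _ (Finset.mem_univ i0), mul_comm]
            congr 1
            · apply Finset.prod_congr rfl
              intro i hi
              simp only [hg]
              rw [Function.update_of_ne (Finset.ne_of_mem_erase hi)]
            · simp only [hg]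
              rw [if_neg hi0, Function.update_self]
          have e2 : (∏ i, if i ∈ S then p i (m i) else
              ∑' k, p i k * Function.update z i0 ζ i ^ k) = ∑' k, K * p i0 k * ζ ^ k := by
            rw [← Finset.mul_prod_erase _ _ (Finset.mem_univ i0), if_neg hi0,
              Function.update_self]
            have e3 : ∏ i ∈ Finset.univ.erase i0, (if i ∈ S then p i (m i) else
              ∑' k, p i k * Function.update z i0 ζ i ^ k) = K := by
              apply Finset.prod_congr rfl
              intro i hi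
              rw [Function.update_of_ne (Finset.ne_of_mem_erase hi)]
            rw [e3, mul_comm, ← tsum_mul_left]
            apply tsum_congr
            intro k
            ring
          rw [e2] at h2
          simp only [e1] at h2
          exact h2) (m i0)
      have e1 : ∀ j x, ∏ i, g j (insert i0 S) z i x =
          (∏ i ∈ Finset.univ.erase i0, g j S z i x) * (if N j i0 x = m i0 then 1 else 0) := by
        intro j x
        rw [← Finset.mul_prod_erase _ _ (Finset.mem_univ i0), mul_comm]
        congr 1
        · apply Finset.prod_congr rfl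
          intro i hi
          simp only [hg]
          have : i ∈ insert i0 S ↔ i ∈ S := by
            rw [Finset.mem_insert]
            constructor
            · rintro (h | h)
              · exact absurd h (Finset.ne_of_mem_erase hi)
              · exact h
            · exact Or.inr
          simp only [this]
        · simp only [hg]
          rw [if_pos (Finset.mem_insert_self i0 S)]
      have e2 : (∏ i, if i ∈ insert i0 S then p i (m i) else ∑' k, p i k * z i ^ k) =
          K * p i0 (m i0) := by
        rw [← Finset.mul_prod_erase _ _ (Finset.mem_univ i0), mul_comm,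
          if_pos (Finset.mem_insert_self i0 S)]
        congr 1
        apply Finset.prod_congr rfl
        intro i hi
        have : i ∈ insert i0 S ↔ i ∈ S := by
          rw [Finset.mem_insert]
          constructor
          · rintro (h | h)
            · exact absurd h (Finset.ne_of_mem_erase hi)
            · exact h
          · exact Or.inr
        simp only [this]
      rw [e2]
      simp only [e1]
      exact h1
  have hfin := key Finset.univ (fun _ => 1) (fun _ => ⟨zero_le_one, le_rfl⟩)
  simp only [Finset.mem_univ, if_true] at hfin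
  refine hfin.congr fun j => ?_
  have hset : MeasurableSet {x | ∀ i, N j i x = m i} := by
    rw [Set.ofPred_forall]
    exact MeasurableSet.iInter fun i => hN j i (measurableSet_singleton _)
  rw [← integral_indicator_one hset]
  apply integral_congr_ae
  refine Eventually.of_forall fun x => ?_
  simp only [hg, Finset.mem_univ, if_true]
  by_cases hx : ∀ i, N j i x = m i
  · rw [Set.indicator_of_mem (by exact hx)]
    simp [hx]
  · rw [Set.indicator_of_notMem (by exact hx)]
    push Not at hx
    obtain ⟨i, hi⟩ := hx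
    exact Finset.prod_eq_zero (Finset.mem_univ i) (if_neg hi)

end Pool.Agent.X25.PV
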