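import Pool.Agent.X25.PV.C
import Pool.Agent.X25.PV.D

set_option autoImplicit false

/-!
# Visits of the orbits of the standard map to moving arcs
-/

namespace Pool.Agent.X25.PV

open Real MeasureTheory Function Filter Topology Pool.Agent.TH705.SM Pool.Agent.X100.SM

open Classical in
/-- the number of times `k < n` at which the position is in the arc of centre `c k` and half-length
`ρ k` -/
noncomputable def vis (T : T2 → T2) (n : ℕ) (c : ℕ → UnitAddCircle) (ρ : ℕ → ℝ) (p : T2) : ℕ :=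
  ((Finset.range n).filter (fun k => (T^[k] p).1 ∈ Metric.closedBall (c k) (ρ k))).card

theorem vis_meas (a : ℝ) (n : ℕ) (c : ℕ → UnitAddCircle) (ρ : ℕ → ℝ) :
    Measurable (vis (S a) n c ρ) := by
  classical
  unfold vis
  simp only [Finset.card_filter]
  refine Finset.measurable_sum _ fun k _ => ?_
  refine Measurable.ite ?_ measurable_const measurable_const
  exact ((iter_mp a k).measurable.fst) Metric.isClosed_closedBall.measurableSet

theorem ind_meas (c ρ : ℝ) : Measurable (ind c ρ) := by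
  classical
  unfold ind
  refine Measurable.ite ?_ measurable_const measurable_const
  exact (AddCircle.continuous_mk' 1).measurable Metric.isClosed_closedBall.measurableSet

theorem ind_ii (c ρ : ℝ) : IntervalIntegrable (ind c ρ) volume 0 1 := by
  refine (intervalIntegrable_const (c := (1:ℝ))).mono_fun
    (ind_meas c ρ).aestronglyMeasurable (Eventually.of_forall fun x => ?_)
  show ‖ind c ρ x‖ ≤ ‖(1:ℝ)‖
  rw [norm_eq_abs, norm_eq_abs, abs_one, abs_of_nonneg (ind_mem c ρ x).1]
  exact (ind_mem c ρ x).2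

theorem Fi_sum {r : ℕ} (z : Fin r → ℝ) {c ρ : Fin r → ℝ}
    (hd : ∀ i i', i ≠ i' → Disjoint (Metric.closedBall (c i : UnitAddCircle) (ρ i))
      (Metric.closedBall (c i' : UnitAddCircle) (ρ i'))) (x : ℝ) :
    Fi z c ρ x = 1 - ∑ i, (1 - z i) * ind (c i) (ρ i) x := by
  classical
  unfold Fi
  by_cases h : ∃ i0, (x : UnitAddCircle) ∈ Metric.closedBall (c i0 : UnitAddCircle) (ρ i0)
  · obtain ⟨i0, hi0⟩ := h
    have h1 : ∀ i, i ≠ i0 → ind (c i) (ρ i) x = 0 := by
      intro i hi
      unfold ind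
      rw [if_neg]
      intro h2
      exact Set.disjoint_left.1 (hd i i0 hi) h2 hi0
    rw [Finset.prod_eq_single i0 (fun i _ hi => by rw [h1 i hi]; ring)
      (fun h => absurd (Finset.mem_univ _) h),
      Finset.sum_eq_single i0 (fun i _ hi => by rw [h1 i hi]; ring)
      (fun h => absurd (Finset.mem_univ _) h)]
  · push Not at h
    have h1 : ∀ i, ind (c i) (ρ i) x = 0 := by
      intro i
      unfold ind
      rw [if_neg (h i)]
    simp [h1]

theorem Fi_int {r : ℕ} (z : Fin r → ℝ) {c ρ : Fin r → ℝ} (h0 : ∀ i, 0 ≤ ρ i)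
    (h1 : ∀ i, ρ i ≤ 1 / 2)
    (hd : ∀ i i', i ≠ i' → Disjoint (Metric.closedBall (c i : UnitAddCircle) (ρ i))
      (Metric.closedBall (c i' : UnitAddCircle) (ρ i'))) :
    ∫ x in (0:ℝ)..1, Fi z c ρ x = 1 - ∑ i, (1 - z i) * (2 * ρ i) := by
  have hi : ∀ i, IntervalIntegrable (fun x => (1 - z i) * ind (c i) (ρ i) x) volume 0 1 :=
    fun i => (ind_ii (c i) (ρ i)).const_mul _
  simp only [Fi_sum z hd]
  have hs : IntervalIntegrable (fun x => ∑ i, (1 - z i) * ind (c i) (ρ i) x) volume 0 1 := by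
    have := IntervalIntegrable.sum (μ := volume) (a := (0:ℝ)) (b := 1) Finset.univ
      (f := fun i x => (1 - z i) * ind (c i) (ρ i) x) (fun i _ => hi i)
    have e : (fun x => ∑ i, (1 - z i) * ind (c i) (ρ i) x) =
        ∑ i, fun x => (1 - z i) * ind (c i) (ρ i) x := by
      funext x
      rw [Finset.sum_apply]
    rw [e]
    exact this
  rw [intervalIntegral.integral_sub intervalIntegrable_const hs,
    intervalIntegral.integral_finsetSum (fun i _ => hi i)]
  simp only [intervalIntegral.integral_const, sub_zero, one_smul,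
    intervalIntegral.integral_const_mul]
  congr 1
  exact Finset.sum_congr rfl fun i _ => by rw [ind_int (c i) (h0 i) (h1 i)]

theorem pow_vis (z : ℝ) (a s t : ℝ) (n : ℕ) (c ρ : ℕ → ℝ) :
    z ^ vis (S a) n (fun k => (c k : UnitAddCircle)) ρ ((t : UnitAddCircle), (s : UnitAddCircle)) =
      ∏ k ∈ Finset.range n, (1 - (1 - z) * ind (c k) (ρ k) (X a s (k + 1) t)) := by
  classical
  unfold vis
  rw [← Finset.prod_const, Finset.prod_filter]
  apply Finset.prod_congr rfl
  intro k _
  rw [iter_coe]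
  unfold ind
  simp only
  split_ifs <;> ring

theorem vis_gf {r : ℕ} (z : Fin r → ℝ) (a s : ℝ) (n : ℕ) (c ρ : Fin r → ℕ → ℝ) :
    ∫ x : UnitAddCircle, ∏ i, z i ^ vis (S a) n (fun k => (c i k : UnitAddCircle)) (ρ i)
      (x, (s : UnitAddCircle)) =
    ∫ t in (0:ℝ)..1, ∏ k ∈ Finset.range n,
      Fi z (fun i => c i k) (fun i => ρ i k) (X a s (k + 1) t) := by
  rw [← UnitAddCircle.intervalIntegral_preimage 0, zero_add]
  apply intervalIntegral.integral_congr
  intro t _
  simp only
  unfold Fi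
  rw [Finset.prod_comm]
  apply Finset.prod_congr rfl
  intro i _
  exact pow_vis (z i) a s t n (c i) (ρ i)

/-- the conditions on the targets -/
def Targets {r : ℕ} (c : Fin r → ℕ → UnitAddCircle) (ρ : Fin r → ℕ → ℝ) : Prop :=
  (∀ i k, 0 ≤ ρ i k ∧ ρ i k ≤ 1 / 2) ∧
    ∀ k i i', i ≠ i' → Disjoint (Metric.closedBall (c i k) (ρ i k))
      (Metric.closedBall (c i' k) (ρ i' k))

/-- **the quantitative law** -/
theorem quant {a : ℝ} (ha : 1 ≤ |a|) {r : ℕ} (n : ℕ) {c : Fin r → ℕ → UnitAddCircle}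
    {ρ : Fin r → ℕ → ℝ} (hT : Targets c ρ) {z : Fin r → ℝ} (hz : ∀ i, 0 ≤ z i ∧ z i ≤ 1)
    (y : UnitAddCircle) :
    |(∫ x : UnitAddCircle, ∏ i, z i ^ vis (S a) n (c i) (ρ i) (x, y)) -
        ∏ k ∈ Finset.range n, (1 - ∑ i, (1 - z i) * (2 * ρ i k))| ≤
      (l0 + 10 * r + 4) * √((1 + ∑ k ∈ Finset.range n, ∑ i, 2 * ρ i k) * n / |a|) := by
  obtain ⟨s, rfl⟩ := QuotientAddGroup.mk_surjective y
  have hc : ∀ i k, ∃ u : ℝ, (u : UnitAddCircle) = c i k := fun i k =>
    QuotientAddGroup.mk_surjective (c i k)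
  choose u hu using hc
  have hcu : c = fun i k => (u i k : UnitAddCircle) := by
    funext i k
    exact (hu i k).symm
  subst hcu
  have hI : ∀ k, ∫ x in (0:ℝ)..1, Fi z (fun i => u i k) (fun i => ρ i k) x =
      1 - ∑ i, (1 - z i) * (2 * ρ i k) := fun k =>
    Fi_int z (fun i => (hT.1 i k).1) (fun i => (hT.1 i k).2) (hT.2 k)
  have h := Fi_opt ha s hz (c := fun k i => u i k) (ρ := fun k i => ρ i k)
    (fun k i => (hT.1 i k).1) (fun k i => (hT.1 i k).2) n
    (Λ := ∑ k ∈ Finset.range n, ∑ i, 2 * ρ i k) (by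
      apply Finset.sum_le_sum
      intro k _
      rw [hI k, sub_sub_cancel]
      apply Finset.sum_le_sum
      intro i _
      have h1 := (hT.1 i k).1
      have h2 := hz i
      nlinarith [h2.1])
  simp only [hI] at h
  have e := vis_gf z a s n u ρ
  have e3 : (QuotientAddGroup.mk s : UnitAddCircle) = ((s : ℝ) : UnitAddCircle) := rfl
  rw [e3, e]
  exact h

/-- **the Poisson law** -/
theorem poisson {r : ℕ} {a : ℕ → ℝ} {n : ℕ → ℕ} {c : ℕ → Fin r → ℕ → UnitAddCircle}
    {ρ : ℕ → Fin r → ℕ → ℝ} (hT : ∀ j, Targets (c j) (ρ j))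
    (ha : Tendsto (fun j => |a j| / (1 + n j)) atTop atTop)
    (hs : ∀ ε : ℝ, 0 < ε → ∀ᶠ j in atTop, ∀ i k, k < n j → ρ j i k ≤ ε)
    {lam : Fin r → ℝ}
    (hl : ∀ i, Tendsto (fun j => ∑ k ∈ Finset.range (n j), 2 * ρ j i k) atTop (𝓝 (lam i)))
    (y : ℕ → UnitAddCircle) (m : Fin r → ℕ) :
    Tendsto (fun j => (volume : Measure UnitAddCircle).real
      {x | ∀ i, vis (S (a j)) (n j) (c j i) (ρ j i) (x, y j) = m i}) atTop
      (𝓝 (∏ i, exp (-lam i) * lam i ^ m i / ((m i).factorial : ℝ))) := by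
  have hlam : ∀ i, 0 ≤ lam i := fun i => ge_of_tendsto' (hl i) fun j =>
    Finset.sum_nonneg fun k _ => by
      have := ((hT j).1 i k).1
      positivity
  have hsum : ∀ i, HasSum (fun k : ℕ => exp (-lam i) * lam i ^ k / (k.factorial : ℝ)) 1 := by
    intro i
    have := poisson_gf (lam i) 1
    simpa using this
  refine joint (μ := (volume : Measure UnitAddCircle))
    (N := fun j i x => vis (S (a j)) (n j) (c j i) (ρ j i) (x, y j))
    (fun j i => (vis_meas (a j) (n j) (c j i) (ρ j i)).comp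
      (measurable_id.prodMk measurable_const))
    (p := fun i k => exp (-lam i) * lam i ^ k / (k.factorial : ℝ))
    (fun i k => div_nonneg (mul_nonneg (exp_pos _).le (pow_nonneg (hlam i) _))
      (Nat.cast_nonneg _)) hsum ?_ m
  intro z hz
  have e1 : (∏ i, ∑' k : ℕ, exp (-lam i) * lam i ^ k / (k.factorial : ℝ) * z i ^ k) =
      exp (-∑ i, (1 - z i) * lam i) := by
    rw [← Finset.sum_neg_distrib, exp_sum]
    apply Finset.prod_congr rfl
    intro i _
    exact (poisson_gf (lam i) (z i)).tsum_eq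
  rw [e1]
  -- the product
  have t1 : Tendsto (fun j => ∏ k ∈ Finset.range (n j), (1 - ∑ i, (1 - z i) * (2 * ρ j i k)))
      atTop (𝓝 (exp (-∑ i, (1 - z i) * lam i))) := by
    apply prod_lim (u := fun j k => ∑ i, (1 - z i) * (2 * ρ j i k))
    · intro j k
      refine Finset.sum_nonneg fun i _ => ?_
      have h1 := ((hT j).1 i k).1
      have h2 := (hz i).2
      have : 0 ≤ 1 - z i := by linarith
      positivity
    · intro ε hε
      have h1 : 0 < ε / (2 * ((r:ℝ) + 1)) := by positivity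
      filter_upwards [hs _ h1] with j hj
      intro k hk
      have h2 : ∑ i, (1 - z i) * (2 * ρ j i k) ≤ ∑ i : Fin r, 2 * (ε / (2 * ((r:ℝ) + 1))) := by
        apply Finset.sum_le_sum
        intro i _
        have h3 := hj i k hk
        have h4 := ((hT j).1 i k).1
        have h5 := hz i
        nlinarith [h5.1, h5.2]
      refine h2.trans ?_
      rw [Finset.sum_const, Finset.card_univ, Fintype.card_fin, nsmul_eq_mul]
      have h6 : (r:ℝ) * (2 * (ε / (2 * ((r:ℝ) + 1)))) = ε * ((r:ℝ) / ((r:ℝ) + 1)) := by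
        field_simp
      rw [h6]
      apply mul_le_of_le_one_right hε.le
      rw [div_le_one (by positivity)]
      linarith
    · have : ∀ j, ∑ k ∈ Finset.range (n j), ∑ i, (1 - z i) * (2 * ρ j i k) =
          ∑ i, (1 - z i) * ∑ k ∈ Finset.range (n j), 2 * ρ j i k := by
        intro j
        rw [Finset.sum_comm]
        apply Finset.sum_congr rfl
        intro i _
        rw [Finset.mul_sum]
      simp only [this]
      exact tendsto_finsetSum _ fun i _ => (hl i).const_mul _
  -- the error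
  have t2 : Tendsto (fun j => (l0 + 10 * r + 4) *
      √((1 + ∑ k ∈ Finset.range (n j), ∑ i, 2 * ρ j i k) * (n j) / |a j|)) atTop (𝓝 0) := by
    have h1 : Tendsto (fun j => 1 + ∑ k ∈ Finset.range (n j), ∑ i, 2 * ρ j i k) atTop
        (𝓝 (1 + ∑ i, lam i)) := by
      have : ∀ j, ∑ k ∈ Finset.range (n j), ∑ i, 2 * ρ j i k =
          ∑ i, ∑ k ∈ Finset.range (n j), 2 * ρ j i k := fun j => Finset.sum_comm
      simp only [this]
      exact (tendsto_finsetSum _ fun i _ => hl i).const_add 1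
    have h2 : Tendsto (fun j => (n j : ℝ) / |a j|) atTop (𝓝 0) := by
      have h3 := ha.inv_tendsto_atTop
      refine squeeze_zero (fun j => by positivity) (fun j => ?_) h3
      show (n j : ℝ) / |a j| ≤ (|a j| / (1 + n j))⁻¹
      rw [inv_div]
      apply div_le_div_of_nonneg_right _ (abs_nonneg _)
      linarith
    have h4 := ((h1.mul h2).sqrt).const_mul (l0 + 10 * r + 4)
    rw [mul_zero, Real.sqrt_zero, mul_zero] at h4
    refine h4.congr fun j => ?_
    rw [mul_div_assoc]
  have h1 : ∀ᶠ j in atTop, 1 ≤ |a j| := by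
    filter_upwards [ha.eventually_ge_atTop 1] with j hj
    have h2 : (0:ℝ) < 1 + n j := by positivity
    rw [le_div_iff₀ h2] at hj
    have : (0:ℝ) ≤ n j := Nat.cast_nonneg _
    linarith
  have t3 : Tendsto (fun j => (∫ x : UnitAddCircle, ∏ i, z i ^
      vis (S (a j)) (n j) (c j i) (ρ j i) (x, y j)) -
        ∏ k ∈ Finset.range (n j), (1 - ∑ i, (1 - z i) * (2 * ρ j i k))) atTop (𝓝 0) := by
    refine squeeze_zero_norm' ?_ t2
    filter_upwards [h1] with j hj
    exact quant hj (n j) (hT j) hz (y j)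
  have t4 := t3.add t1
  simp only [sub_add_cancel, zero_add] at t4
  exact t4

end Pool.Agent.X25.PV
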